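import Pool.Agent.MP_1bac39_an.H95.Gap
import Pool.Agent.MP_1bac39_an.H95.Four
import Pool.Agent.MP_1bac39_an.H95.Alg

/-!
A fourth order periodic operator with real analytic coefficients whose Floquet matrix has a
pathology of the first kind.  The operator is `(D² + Q)²` where `Q` is a real trigonometric
polynomial such that `0` is the critical point of the Hill discriminant of `D² + Q` inside an open gap.
-/

open Filter Topology Matrix

namespace Pool.Agent.Results.MP_1bac39_an.Disproof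

/-- `T l` is the matrix of the translation `u ↦ u (· + b)` in the basis of fundamental solutions
of `u⁽ⁿ⁾ + ∑_{k ≤ n-2} p k * u⁽ᵏ⁾ = l u`, for every complex `l`. -/
def IsFloquetMatrix (n : ℕ) (b : ℝ) (p : ℕ → ℝ → ℂ) (T : ℂ → Matrix (Fin n) (Fin n) ℂ) : Prop :=
  ∀ l : ℂ, ∃ u : Fin n → ℝ → ℂ,
    (∀ j, ContDiff ℝ n (u j)) ∧
    (∀ j x, iteratedDeriv n (u j) x +
      ∑ k ∈ Finset.range (n - 1), p k x * iteratedDeriv k (u j) x = l * u j x) ∧
    (∀ j k : Fin n, iteratedDeriv k (u j) 0 = if j = k then 1 else 0) ∧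
    (∀ j x, u j (x + b) = ∑ i, T l i j * u i x)

/-- `ρ` is the local uniformisation `l = l₀ + t ^ d`, `r = ρ t` of a ramification point of degree
`d > 1` over `l₀` of the Riemann surface `det (r I - N l) = 0`: the `d` branches `ρ t`,
`t ^ d = l - l₀`, are distinct for `l ≠ l₀` near `l₀` (so they are permuted cyclically around
`l₀`), they all tend to `ρ 0`, and exactly `d` eigenvalues of `N l₀` equal `ρ 0`. -/
def IsRamificationPoint {n : ℕ} (N : ℂ → Matrix (Fin n) (Fin n) ℂ) (l₀ : ℂ) (d : ℕ)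
    (ρ : ℂ → ℂ) : Prop :=
  1 < d ∧ AnalyticAt ℂ ρ 0 ∧
    (∀ᶠ t in 𝓝 (0 : ℂ), (ρ t • (1 : Matrix (Fin n) (Fin n) ℂ) - N (l₀ + t ^ d)).det = 0) ∧
    (∀ᶠ l in 𝓝[≠] l₀, Set.InjOn ρ {t | t ^ d = l - l₀}) ∧
    (N l₀).charpoly.rootMultiplicity (ρ 0) = d

/-- Pathology of the first kind over `l₀`: for a ramification point of degree `d > 1`, the span of
the eigenvectors of the `d` branches has a frame `w l` converging, as `l → l₀`, to a basis `w₀`
of the (hence `d`-dimensional) eigenspace of `N l₀` for the eigenvalue `ρ 0`. -/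
def HasFirstKindPathology {n : ℕ} (N : ℂ → Matrix (Fin n) (Fin n) ℂ) (l₀ : ℂ) : Prop :=
  ∃ (d : ℕ) (ρ : ℂ → ℂ), IsRamificationPoint N l₀ d ρ ∧
    ∃ (w : ℂ → Fin d → Fin n → ℂ) (w₀ : Fin d → Fin n → ℂ),
      (∀ᶠ l in 𝓝[≠] l₀, Submodule.span ℂ (Set.range (w l)) =
        ⨆ (t : ℂ) (_ : t ^ d = l - l₀), Module.End.eigenspace (Matrix.toLin' (N l)) (ρ t)) ∧
      Tendsto w (𝓝[≠] l₀) (𝓝 w₀) ∧ LinearIndependent ℂ w₀ ∧
      Submodule.span ℂ (Set.range w₀) = Module.End.eigenspace (Matrix.toLin' (N l₀)) (ρ 0)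

open Pool.Agent.MP_1bac39_an.H95 in
theorem floquet_unique {p : ℕ → ℝ → ℂ} {b : ℝ} {T T' : ℂ → Matrix (Fin 4) (Fin 4) ℂ}
    (hT : ∀ l y, FourSol p l y → y b = T l *ᵥ y 0) (hT' : IsFloquetMatrix 4 b p T') : T' = T := by
  funext l
  obtain ⟨u, hu, hode, h0, hb⟩ := hT' l
  ext k j
  have hd : ∀ m, m < 4 → ∀ x, HasDerivAt (iteratedDeriv m (u j)) (iteratedDeriv (m + 1) (u j) x) x := by
    intro m hm x
    rw [iteratedDeriv_succ]
    exact ((contDiff_nat_iff_iteratedDeriv.1 (hu j)).2 m hm x).hasDerivAt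
  have hsol : FourSol p l (fun x (i : Fin 4) => iteratedDeriv i (u j) x) := by
    intro x
    refine hasDerivAt_pi.2 fun i => ?_
    fin_cases i
    · exact hd 0 (by norm_num) x
    · exact hd 1 (by norm_num) x
    · exact hd 2 (by norm_num) x
    · refine (hd 3 (by norm_num) x).congr_deriv ?_
      have := hode j x
      simp only [Finset.sum_range_succ, Finset.range_zero, Finset.sum_empty] at this
      simp only [iteratedDeriv_zero] at this
      show iteratedDeriv 4 (u j) x = l * iteratedDeriv 0 (u j) x - p 0 x * iteratedDeriv 0 (u j) x -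
        p 1 x * iteratedDeriv 1 (u j) x - p 2 x * iteratedDeriv 2 (u j) x
      simp only [iteratedDeriv_zero]
      linear_combination this
  have h1 : iteratedDeriv k (u j) b = T l k j := by
    have := congrFun (hT l _ hsol) k
    simpa [Matrix.mulVec, dotProduct, h0] using this
  have h2 : iteratedDeriv k (fun x => u j (x + b)) 0 = iteratedDeriv k (u j) b := by
    rw [iteratedDeriv_comp_add_const]; simp
  have h3 : iteratedDeriv k (fun x => ∑ i, T' l i j * u i x) 0 = T' l k j := by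
    rw [iteratedDeriv_fun_sum]
    · simp [h0]
    · intro i _
      have : ContDiff ℝ (k : ℕ) (u i) := (hu i).of_le (by exact_mod_cast k.2.le)
      exact (contDiff_const.mul this).contDiffAt
  rw [← h1, ← h2, ← h3]
  congr 1
  funext x
  exact (hb j x).symm

open Pool.Agent.MP_1bac39_an.H95 in
theorem result :
    ∃ (b : ℝ) (p : ℕ → ℝ → ℝ) (T : ℂ → Matrix (Fin 4) (Fin 4) ℂ) (l₀ : ℂ),
      0 < b ∧ (∀ k, ContDiff ℝ ⊤ (p k)) ∧ (∀ k, Function.Periodic (p k) b) ∧
      IsFloquetMatrix 4 b (fun k x => (p k x : ℂ)) T ∧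
      (∀ T', IsFloquetMatrix 4 b (fun k x => (p k x : ℂ)) T' → T' = T) ∧
      (∀ i j, Differentiable ℂ (fun l => T l i j)) ∧
      (∀ᶠ l in 𝓝[≠] l₀, (T l).discr ≠ 0) ∧
      HasFirstKindPathology T l₀ ∧
      ∃ P : Matrix (Fin 4) (Fin 4) ℂ, IsUnit P ∧ (P⁻¹ * T l₀ * P).IsDiag := by
  obtain ⟨m, c, c', s, s', hc, hs, hc0, hc1, hs0, hs1, ha, hγ, hβ, hδ, him, hre, hΔ, hodd⟩ :=
    exists_gap_critical
  have hsm : ∀ k, ContDiff ℝ ⊤ (sqCoef (pot m) pot1 pot2 k) := by
    intro k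
    match k with
    | 0 => unfold sqCoef pot pot2; fun_prop
    | 1 => unfold sqCoef pot1; fun_prop
    | 2 => unfold sqCoef pot; fun_prop
    | k + 3 => exact contDiff_const
  have hper : ∀ k, Function.Periodic (sqCoef (pot m) pot1 pot2 k) Real.pi := by
    intro k x
    match k with
    | 0 => simp only [sqCoef, pot_periodic m x, pot2_periodic x]
    | 1 => simp only [sqCoef, pot1_periodic x]
    | 2 => simp only [sqCoef, pot_periodic m x]
    | k + 3 => rfl
  have hcont : ∀ k, Continuous (fun x => (sqCoef (pot m) pot1 pot2 k x : ℂ)) := fun k =>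
    Complex.continuous_ofReal.comp (hsm k).continuous
  have hperC : ∀ k, Function.Periodic (fun x => (sqCoef (pot m) pot1 pot2 k x : ℂ)) Real.pi :=
    fun k x => by simp only [hper k x]
  obtain ⟨T, hT1, hT2, hT3⟩ := exists_floquet Real.pi_pos hcont hperC
  have hdet : ∀ t, c t Real.pi * s' t Real.pi - c' t Real.pi * s t Real.pi = 1 := by
    intro t
    rw [(hc t).wronskian (hs t), hc0, hc1, hs0, hs1]; simp
  have hJ : ∀ t v₁ v₂, T (t ^ 2) *ᵥ jet (pot m 0 : ℂ) (pot1 0 : ℂ) t v₁ v₂ =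
      jet (pot m 0 : ℂ) (pot1 0 : ℂ) t (c t Real.pi * v₁ + s t Real.pi * v₂)
        (c' t Real.pi * v₁ + s' t Real.pi * v₂) := by
    intro t v₁ v₂
    have h := hT3 _ _ (((hc t).comb (hs t) v₁ v₂).fourSol (pot_hasDerivAt m) pot1_hasDerivAt)
    have e1 : pot m Real.pi = pot m 0 := by simpa using pot_periodic m 0
    have e2 : pot1 Real.pi = pot1 0 := by simpa using pot1_periodic 0
    simp only [hc0, hc1, hs0, hs1, e1, e2, mul_one, mul_zero, add_zero, zero_add] at h
    unfold jet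
    rw [← h]
    simp only [mul_comm]
  obtain ⟨h1, ⟨ρ, h2, h3, h4, h5, h6⟩, h7⟩ := main_local T hT2 _ _ _ _ ha hβ hγ hδ hdet _ _ hJ hΔ
    him hre hodd
  exact ⟨Real.pi, sqCoef (pot m) pot1 pot2, T, 0, Real.pi_pos, hsm, hper, hT1,
    fun T' hT' => floquet_unique hT3 hT', hT2, h1,
    ⟨2, ρ, ⟨by norm_num, h2, h3, h4, h5⟩, h6⟩, h7⟩

end Pool.Agent.Results.MP_1bac39_an.Disproof
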